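import Pool.Agent.H1.HP.Family

/-!
# There is no consistent estimator of the parameters of the hierarchical preferential attachment model

The marginal likelihood `G` is the law of the observed history, and on the curve of identifiable two label models
`model τ p`, `1/4 ≤ p ≤ 1/2`, every sequence of estimators is inconsistent at all values of `p` but one at most.
-/

set_option autoImplicit false

namespace Pool.Agent.Results.MP_7e57c2_pr.NoConsistentEstimator

open Pool.Agent.H1.HP

/-- no estimator (the maximum likelihood one included) is consistent at two of the identifiable models -/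
theorem result :
    (∀ (θ : Param 2) (n : ℕ) (h : Hist n), G θ n h = law θ n h) ∧
    ∀ τ : ℝ, 0 < τ → τ ≤ 1 / 20000 →
      (∀ p ∈ Set.Icc (1 / 4 : ℝ) (1 / 2), Identifiable (model τ p)) ∧
      (∀ p ∈ Set.Icc (1 / 4 : ℝ) (1 / 2), ∀ p' ∈ Set.Icc (1 / 4 : ℝ) (1 / 2), p ≠ p' → ∃ ε : ℝ, 0 < ε ∧
        ∀ (n : ℕ) (T : Hist n → Param 2), 15 / 17 ≤ err ε T (model τ p) + err ε T (model τ p')) ∧
      ∀ T : (n : ℕ) → Hist n → Param 2,
        {p ∈ Set.Icc (1 / 4 : ℝ) (1 / 2) | Consistent T (model τ p)}.Subsingleton := by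
  refine ⟨fun θ n h => G_eq_law θ n h, fun τ hτ hτ' => ⟨fun p hp => model_identifiable hτ hτ' hp,
    fun p hp p' hp' hne => err_bound hτ hτ' hp hp' hne, ?_⟩⟩
  rintro T p ⟨hp, hT⟩ p' ⟨hp', hT'⟩
  by_contra hne
  obtain ⟨ε, hε, h⟩ := err_bound hτ hτ' hp hp' hne
  have h1 := (hT ε hε).add (hT' ε hε)
  rw [add_zero] at h1
  have h2 := ge_of_tendsto' h1 fun n => h n (T n)
  norm_num at h2

end Pool.Agent.Results.MP_7e57c2_pr.NoConsistentEstimator
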